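import Pool.Agent.TH974.DegLog

/-!
# `R(H, K_{n,n}) = O(n ^ (r + 1) / (log n) ^ r)` for every `r`-degenerate graph `H`
-/

set_option autoImplicit false

namespace Pool.Agent.Results.MP_cdbf1d_co.LogBound

/-- `H` has an ordering of its vertices in which every vertex has at most `R` earlier neighbours,
and at most `R - 1` earlier neighbours if it has a later neighbour. -/
def Ord {k : ℕ} (H : SimpleGraph (Fin k)) (R : ℕ) : Prop :=
  ∃ f : Fin k → ℕ, Function.Injective f ∧ ∀ v : Fin k,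
    Set.ncard {u : Fin k | H.Adj v u ∧ f u < f v} ≤ R ∧
    ((∃ w, H.Adj v w ∧ f v < f w) → Set.ncard {u : Fin k | H.Adj v u ∧ f u < f v} + 1 ≤ R)

/-- Every `r`-degenerate graph satisfies `Ord H (r + 1)`. -/
theorem ord_of_degenerate {k : ℕ} (H : SimpleGraph (Fin k)) (r : ℕ)
    (h : ∃ f : Fin k → ℕ, Function.Injective f ∧
      ∀ v : Fin k, Set.ncard {u : Fin k | H.Adj v u ∧ f u < f v} ≤ r) : Ord H (r + 1) := by
  obtain ⟨f, hf, h⟩ := h
  exact ⟨f, hf, fun v => ⟨(h v).trans (Nat.le_succ r), fun _ => Nat.succ_le_succ (h v)⟩⟩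

/-- `R(H, K_{n,n}) = O(n ^ R / (log n) ^ (R - 1))` -/
theorem result : ∀ R k : ℕ, 1 ≤ R → ∀ H : SimpleGraph (Fin k), Ord H R →
    ∃ C : ℝ, ∀ n N : ℕ, 2 ≤ n → C * (n : ℝ) ^ R / Real.log n ^ (R - 1) ≤ N →
      ∀ G : SimpleGraph (Fin N),
        H.IsContained G ∨ (completeBipartiteGraph (Fin n) (Fin n)).IsContained Gᶜ := by
  intro R k hR H ⟨f, hf, h⟩
  classical
  refine TH974.DegLog.main R k hR H f hf (fun v => ?_) (fun v w hvw hlt => ?_)
  · have h1 := (h v).1
    rw [Set.ncard_eq_toFinset_card'] at h1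
    convert h1 using 2
    ext u
    simp
  · have h1 := (h v).2 ⟨w, hvw, hlt⟩
    rw [Set.ncard_eq_toFinset_card'] at h1
    convert h1 using 3
    ext u
    simp

/-- the case of `r`-degenerate graphs -/
theorem degenerate (r k : ℕ) (H : SimpleGraph (Fin k))
    (h : ∃ f : Fin k → ℕ, Function.Injective f ∧
      ∀ v : Fin k, Set.ncard {u : Fin k | H.Adj v u ∧ f u < f v} ≤ r) :
    ∃ C : ℝ, ∀ n N : ℕ, 2 ≤ n → C * (n : ℝ) ^ (r + 1) / Real.log n ^ r ≤ N →
      ∀ G : SimpleGraph (Fin N),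
        H.IsContained G ∨ (completeBipartiteGraph (Fin n) (Fin n)).IsContained Gᶜ := by
  have := result (r + 1) k (Nat.succ_le_succ (Nat.zero_le r)) H (ord_of_degenerate H r h)
  rw [Nat.add_sub_cancel] at this
  exact this

end Pool.Agent.Results.MP_cdbf1d_co.LogBound
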