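import Pool.Agent.TH974.Tw

/-!
# Q1 for graphs of treewidth at most `r`

`H` has treewidth at most `r` iff it is a subgraph of a graph `H'` which has an ordering of the
vertices such that the earlier neighbours of every vertex form a clique of `H'` with at most `r`
vertices.
-/

set_option autoImplicit false

namespace Pool.Agent.Results.MP_cdbf1d_co.Treewidth

/-- `H` is a subgraph of a graph `H'` with a vertex ordering in which the earlier neighbours of
every vertex form a clique with at most `r` vertices (equivalently, `H` has treewidth `≤ r`). -/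
def TreewidthLE {k : ℕ} (H : SimpleGraph (Fin k)) (r : ℕ) : Prop :=
  ∃ H' : SimpleGraph (Fin k), H ≤ H' ∧ ∃ f : Fin k → ℕ, Function.Injective f ∧
    ∀ v : Fin k, Set.ncard {u : Fin k | H'.Adj v u ∧ f u < f v} ≤ r ∧
      ∀ u w : Fin k, H'.Adj v u → f u < f v → H'.Adj v w → f w < f v → u ≠ w → H'.Adj u w

/-- For every `H` of treewidth at most `r` there is `C` such that every graph on at least
`C n ^ r` vertices contains `H` or its complement contains `K_{2n}`, and hence `K_{n,n}`. -/
theorem result : ∀ r k : ℕ, ∀ H : SimpleGraph (Fin k), TreewidthLE H r →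
    ∃ C : ℕ, ∀ n N : ℕ, C * n ^ r ≤ N → ∀ G : SimpleGraph (Fin N),
      H.IsContained G ∨ ((⊤ : SimpleGraph (Fin n ⊕ Fin n)).IsContained Gᶜ ∧
        (completeBipartiteGraph (Fin n) (Fin n)).IsContained Gᶜ) := by
  intro r k H ⟨H', hHH, f, hf, hH'⟩
  refine ⟨((r + 1) * k + r + 1) * 2 ^ r, ?_⟩
  intro n N hN G
  -- reduction to the clique version
  suffices h : H.IsContained G ∨ ∃ S : Finset (Fin N),
      (∀ x ∈ S, ∀ y ∈ S, ¬ G.Adj x y) ∧ 2 * n ≤ S.card by
    rcases h with h | ⟨S, hS, hc⟩
    · exact Or.inl h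
    right
    have hcard : Fintype.card (Fin n ⊕ Fin n) ≤ Fintype.card S := by
      rw [Fintype.card_sum, Fintype.card_fin, Fintype.card_coe]
      omega
    obtain ⟨e⟩ := Function.Embedding.nonempty_of_card_le hcard
    have htop : (⊤ : SimpleGraph (Fin n ⊕ Fin n)).IsContained Gᶜ := by
      refine ⟨⟨⟨fun x => (e x : Fin N), ?_⟩, ?_⟩⟩
      · intro a b hab
        rw [SimpleGraph.top_adj] at hab
        rw [SimpleGraph.compl_adj]
        refine ⟨fun h => hab (e.injective (Subtype.ext h)), hS _ (e a).2 _ (e b).2⟩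
      · intro a b hab
        exact e.injective (Subtype.ext hab)
    exact ⟨htop, SimpleGraph.IsContained.mono_left le_top htop⟩
  rcases Nat.eq_zero_or_pos n with rfl | hn
  · exact Or.inr ⟨∅, by simp, by simp⟩
  have h1 := TH974.Tw.main_indep r k H' f hf
    (fun v u w h1 h2 h3 h4 h5 => (hH' v).2 u w h1 h3 h2 h4 h5) (fun v => (hH' v).1)
    (2 * n) N (by omega) (by rw [mul_pow, ← mul_assoc]; exact hN) G
  rcases h1 with h1 | ⟨S, hS, hc⟩
  · exact Or.inl (SimpleGraph.IsContained.mono_left hHH h1)
  · exact Or.inr ⟨S, hS, hc.le⟩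

end Pool.Agent.Results.MP_cdbf1d_co.Treewidth
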